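import Pool.Agent.H572R4.Stmts

set_option autoImplicit false

/-! Project H572-PI: the marking formula is arithmetical. -/

namespace Pool.Agent.H982R5.PiE4

open Pool.Agent.Helper446.Defs Pool.Agent.Helper446.CB Pool.Agent.Helper446.CB.Ix
open Pool.Agent.H572R4 Pool.Agent.Helper446

variable {α : Type} [Primcodable α]

theorem aLe {f g : α → ℕ} (hf : Computable f) (hg : Computable g) :
    Arith fun x => ix (f x) ≤ ix (g x) :=
  (arith_le.comp (f := fun x => (f x, g x)) (hf.pair hg)).of_iff fun _ => Iff.rfl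

theorem aAll {p : α → ℕ → Prop} (hp : Arith fun x : α × ℕ => p x.1 x.2) :
    Arith fun a => ∀ b, p a b := Arith.all hp

theorem inf_le_iff' (i j : ℕ) (c : LB eX) :
    ix i ⊓ ix j ≤ c ↔ ∀ z, ix z ≤ ix i → ix z ≤ ix j → ix z ≤ c := by
  constructor
  · intro h z h1 h2
    exact (le_inf h1 h2).trans h
  · intro h
    obtain ⟨z, hz⟩ := ix_surj (ix i ⊓ ix j)
    rw [← hz]
    exact h z (by rw [hz]; exact inf_le_left) (by rw [hz]; exact inf_le_right)

theorem aInf {f g h : α → ℕ} (hf : Computable f) (hg : Computable g) (hh : Computable h) :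
    Arith fun x => ix (f x) ⊓ ix (g x) ≤ ix (h x) := by
  refine Arith.of_iff (p := fun x => ∀ z, ix z ≤ ix (f x) → ix z ≤ ix (g x) → ix z ≤ ix (h x))
    ?_ fun x => (inf_le_iff' _ _ _).symm
  refine aAll (p := fun x z => ix z ≤ ix (f x) → ix z ≤ ix (g x) → ix z ≤ ix (h x)) ?_
  refine Arith.imp (aLe (f := fun x : α × ℕ => x.2) (g := fun x : α × ℕ => f x.1)
    Computable.snd (hf.comp Computable.fst)) ?_
  refine Arith.imp (aLe (f := fun x : α × ℕ => x.2) (g := fun x : α × ℕ => g x.1)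
    Computable.snd (hg.comp Computable.fst)) ?_
  exact aLe (f := fun x : α × ℕ => x.2) (g := fun x : α × ℕ => h x.1)
    Computable.snd (hh.comp Computable.fst)

theorem bot_iff (i : ℕ) : ix i = ⊥ ↔ ∀ y, ix i ≤ ix y := by
  constructor
  · intro h y
    rw [h]
    exact bot_le
  · intro h
    obtain ⟨y, hy⟩ := ix_surj ⊥
    have := h y
    rw [hy] at this
    exact le_bot_iff.1 this

theorem aBot {f : α → ℕ} (hf : Computable f) : Arith fun x => ∀ y, ix (f x) ≤ ix y := by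
  refine aAll (p := fun x y => ix (f x) ≤ ix y) ?_
  exact aLe (f := fun x : α × ℕ => f x.1) (g := fun x : α × ℕ => x.2)
    (hf.comp Computable.fst) Computable.snd

theorem aTop {f : α → ℕ} (hf : Computable f) : Arith fun x => ∀ y, ix y ≤ ix (f x) := by
  refine aAll (p := fun x y => ix y ≤ ix (f x)) ?_
  exact aLe (f := fun x : α × ℕ => x.2) (g := fun x : α × ℕ => f x.1)
    Computable.snd (hf.comp Computable.fst)

theorem cpl_iff (i : ℕ) : Cpl (ix i) ↔ ∃ j,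
    (∀ z, ix z ≤ ix i → ix z ≤ ix j → ∀ y, ix z ≤ ix y) ∧
    (∀ z, ix i ≤ ix z → ix j ≤ ix z → ∀ y, ix y ≤ ix z) := by
  constructor
  · rintro ⟨d, h1, h2⟩
    obtain ⟨j, rfl⟩ := ix_surj d
    refine ⟨j, fun z e1 e2 => ?_, fun z e1 e2 y => ?_⟩
    · have : ix z = ⊥ := le_bot_iff.1 (by rw [← h1]; exact le_inf e1 e2)
      exact (bot_iff z).1 this
    · have : ⊤ ≤ ix z := by rw [← h2]; exact sup_le e1 e2
      exact le_top.trans this
  · rintro ⟨j, h1, h2⟩
    refine ⟨ix j, ?_, ?_⟩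
    · obtain ⟨z, hz⟩ := ix_surj (ix i ⊓ ix j)
      rw [← hz]
      exact (bot_iff z).2 (h1 z (by rw [hz]; exact inf_le_left) (by rw [hz]; exact inf_le_right))
    · obtain ⟨z, hz⟩ := ix_surj (ix i ⊔ ix j)
      obtain ⟨y, hy⟩ := ix_surj ⊤
      rw [← hz]
      have := h2 z (by rw [hz]; exact le_sup_left) (by rw [hz]; exact le_sup_right) y
      rw [hy] at this
      exact top_le_iff.1 this

theorem aCpl {f : α → ℕ} (hf : Computable f) : Arith fun x => Cpl (ix (f x)) := by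
  refine Arith.of_iff (p := fun x => ∃ j : ℕ,
    (∀ z, ix z ≤ ix (f x) → ix z ≤ ix j → ∀ y, ix z ≤ ix y) ∧
    (∀ z, ix (f x) ≤ ix z → ix j ≤ ix z → ∀ y, ix y ≤ ix z)) ?_ fun x => (cpl_iff _).symm
  refine Arith.ex (p := fun x (j : ℕ) =>
    (∀ z, ix z ≤ ix (f x) → ix z ≤ ix j → ∀ y, ix z ≤ ix y) ∧
    (∀ z, ix (f x) ≤ ix z → ix j ≤ ix z → ∀ y, ix y ≤ ix z)) ?_
  have c1 : Computable fun x : (α × ℕ) × ℕ => x.2 := Computable.snd
  have c2 : Computable fun x : (α × ℕ) × ℕ => x.1.2 := Computable.snd.comp Computable.fst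
  have c3 : Computable fun x : (α × ℕ) × ℕ => f x.1.1 :=
    hf.comp (Computable.fst.comp Computable.fst)
  refine Arith.and ?_ ?_
  · refine aAll (p := fun (x : α × ℕ) (z : ℕ) =>
      ix z ≤ ix (f x.1) → ix z ≤ ix x.2 → ∀ y, ix z ≤ ix y) ?_
    exact Arith.imp (aLe c1 c3) (Arith.imp (aLe c1 c2) (aBot c1))
  · refine aAll (p := fun (x : α × ℕ) (z : ℕ) =>
      ix (f x.1) ≤ ix z → ix x.2 ≤ ix z → ∀ y, ix y ≤ ix z) ?_
    exact Arith.imp (aLe c3 c1) (Arith.imp (aLe c2 c1) (aTop c1))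

/-- accumulation of the class `d` at `a` -/
theorem acc_iff (a d : ℕ) : (∀ c, Cpl c → ix a ≤ c → ¬ (c ⊓ ix d ≤ ix a)) ↔
    ∀ k, Cpl (ix k) → ix a ≤ ix k → ¬ (ix k ⊓ ix d ≤ ix a) := by
  constructor
  · intro h k
    exact h (ix k)
  · intro h c
    obtain ⟨k, rfl⟩ := ix_surj c
    exact h k

theorem aAcc {f g : α → ℕ} (hf : Computable f) (hg : Computable g) :
    Arith fun x => ∀ k, Cpl (ix k) → ix (f x) ≤ ix k → ¬ (ix k ⊓ ix (g x) ≤ ix (f x)) := by
  refine aAll (p := fun x k => Cpl (ix k) → ix (f x) ≤ ix k → ¬ (ix k ⊓ ix (g x) ≤ ix (f x))) ?_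
  have c1 : Computable fun x : α × ℕ => x.2 := Computable.snd
  have c2 : Computable fun x : α × ℕ => f x.1 := hf.comp Computable.fst
  have c3 : Computable fun x : α × ℕ => g x.1 := hg.comp Computable.fst
  exact Arith.imp (aCpl c1) (Arith.imp (aLe c2 c1) (Arith.not (aInf c1 c3 c2)))

theorem pw_iff (E : List ℕ) (R : ℕ → ℕ → Prop) : E.Pairwise R ↔
    ∀ i k u v : ℕ, E[i]? = some u → E[i + 1 + k]? = some v → R u v := by
  rw [List.pairwise_iff_getElem]
  constructor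
  · intro h i k u v h1 h2
    obtain ⟨l1, e1⟩ := List.getElem?_eq_some_iff.1 h1
    obtain ⟨l2, e2⟩ := List.getElem?_eq_some_iff.1 h2
    rw [← e1, ← e2]
    exact h i (i + 1 + k) l1 l2 (by omega)
  · intro h i j hi hj hij
    obtain ⟨k, rfl⟩ : ∃ k, j = i + 1 + k := ⟨j - (i + 1), by omega⟩
    exact h i k _ _ (List.getElem?_eq_getElem hi) (List.getElem?_eq_getElem hj)

theorem nn_iff (q a n : ℕ) : NN (ix q) (ix a) n ↔ ∃ E : List ℕ, E.length = n ∧
    (∀ i u : ℕ, E[i]? = some u → ix u ≤ ix q ∧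
      ∀ k, Cpl (ix k) → ix a ≤ ix k → ¬ (ix k ⊓ ix u ≤ ix a)) ∧
    (∀ i k u v : ℕ, E[i]? = some u → E[i + 1 + k]? = some v → ix u ⊓ ix v ≤ ix a) := by
  constructor
  · rintro ⟨D, h1, h2, h3, h4⟩
    choose g hg using ix_surj
    have hD : D = (D.map g).map ix := by
      rw [List.map_map]
      conv_lhs => rw [← List.map_id D]
      refine List.map_congr_left fun d _ => ?_
      exact (hg d).symm
    refine ⟨D.map g, by simpa using h1, ?_, ?_⟩
    · intro i u hu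
      have hm : u ∈ D.map g := List.mem_of_getElem? hu
      have hm2 : ix u ∈ D := by
        rw [hD]
        exact List.mem_map_of_mem hm
      exact ⟨h2 _ hm2, (acc_iff a u).1 (h4 _ hm2)⟩
    · have h5 : (D.map g).Pairwise fun x y => ix x ⊓ ix y ≤ ix a := by
        rw [hD, List.pairwise_map] at h3
        exact h3
      exact (pw_iff _ _).1 h5
  · rintro ⟨E, h1, h2, h3⟩
    refine ⟨E.map ix, by simpa using h1, ?_, ?_, ?_⟩
    · intro d hd
      obtain ⟨u, hu, rfl⟩ := List.mem_map.1 hd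
      obtain ⟨i, hi⟩ := List.getElem?_of_mem hu
      exact (h2 i u hi).1
    · rw [List.pairwise_map]
      exact (pw_iff _ _).2 h3
    · intro d hd
      obtain ⟨u, hu, rfl⟩ := List.mem_map.1 hd
      obtain ⟨i, hi⟩ := List.getElem?_of_mem hu
      exact (acc_iff a u).2 (h2 i u hi).2

theorem aGet {f : α → List ℕ} {g h : α → ℕ} (hf : Computable f) (hg : Computable g)
    (hh : Computable h) : Arith fun x => (f x)[g x]? = some (h x) :=
  Arith.of_cp (RE.cp_eq (Computable.list_getElem?.comp hf hg) (Computable.option_some.comp hh))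

theorem aNN {q a n : α → ℕ} (hq : Computable q) (ha : Computable a) (hn : Computable n) :
    Arith fun x => NN (ix (q x)) (ix (a x)) (n x) := by
  refine Arith.of_iff (p := fun x => ∃ E : List ℕ, E.length = n x ∧
    (∀ i u : ℕ, E[i]? = some u → ix u ≤ ix (q x) ∧
      ∀ k, Cpl (ix k) → ix (a x) ≤ ix k → ¬ (ix k ⊓ ix u ≤ ix (a x))) ∧
    (∀ i k u v : ℕ, E[i]? = some u → E[i + 1 + k]? = some v → ix u ⊓ ix v ≤ ix (a x)))
    ?_ fun x => (nn_iff _ _ _).symm
  refine Arith.ex (p := fun x (E : List ℕ) => E.length = n x ∧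
    (∀ i u : ℕ, E[i]? = some u → ix u ≤ ix (q x) ∧
      ∀ k, Cpl (ix k) → ix (a x) ≤ ix k → ¬ (ix k ⊓ ix u ≤ ix (a x))) ∧
    (∀ i k u v : ℕ, E[i]? = some u → E[i + 1 + k]? = some v → ix u ⊓ ix v ≤ ix (a x))) ?_
  refine Arith.and ?_ (Arith.and ?_ ?_)
  · exact Arith.of_cp (RE.cp_eq (Computable.list_length.comp Computable.snd)
      (hn.comp Computable.fst))
  · refine aAll (p := fun (x : α × List ℕ) (i : ℕ) => ∀ u : ℕ, x.2[i]? = some u →
      ix u ≤ ix (q x.1) ∧ ∀ k, Cpl (ix k) → ix (a x.1) ≤ ix k → ¬ (ix k ⊓ ix u ≤ ix (a x.1))) ?_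
    refine aAll (p := fun (x : (α × List ℕ) × ℕ) (u : ℕ) => x.1.2[x.2]? = some u →
      ix u ≤ ix (q x.1.1) ∧
        ∀ k, Cpl (ix k) → ix (a x.1.1) ≤ ix k → ¬ (ix k ⊓ ix u ≤ ix (a x.1.1))) ?_
    have c0 : Computable fun x : ((α × List ℕ) × ℕ) × ℕ => x.1.1.1 :=
      Computable.fst.comp (Computable.fst.comp Computable.fst)
    have c1 : Computable fun x : ((α × List ℕ) × ℕ) × ℕ => x.1.1.2 :=
      Computable.snd.comp (Computable.fst.comp Computable.fst)
    have c2 : Computable fun x : ((α × List ℕ) × ℕ) × ℕ => x.1.2 :=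
      Computable.snd.comp Computable.fst
    exact Arith.imp (aGet c1 c2 Computable.snd)
      (Arith.and (aLe Computable.snd (hq.comp c0)) (aAcc (ha.comp c0) Computable.snd))
  · refine aAll (p := fun (x : α × List ℕ) (i : ℕ) => ∀ k u v : ℕ, x.2[i]? = some u →
      x.2[i + 1 + k]? = some v → ix u ⊓ ix v ≤ ix (a x.1)) ?_
    refine aAll (p := fun (x : (α × List ℕ) × ℕ) (k : ℕ) => ∀ u v : ℕ, x.1.2[x.2]? = some u →
      x.1.2[x.2 + 1 + k]? = some v → ix u ⊓ ix v ≤ ix (a x.1.1)) ?_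
    refine aAll (p := fun (x : ((α × List ℕ) × ℕ) × ℕ) (u : ℕ) => ∀ v : ℕ,
      x.1.1.2[x.1.2]? = some u → x.1.1.2[x.1.2 + 1 + x.2]? = some v →
        ix u ⊓ ix v ≤ ix (a x.1.1.1)) ?_
    refine aAll (p := fun (x : (((α × List ℕ) × ℕ) × ℕ) × ℕ) (v : ℕ) =>
      x.1.1.1.2[x.1.1.2]? = some x.2 → x.1.1.1.2[x.1.1.2 + 1 + x.1.2]? = some v →
        ix x.2 ⊓ ix v ≤ ix (a x.1.1.1.1)) ?_
    have d0 : Computable fun x : ((((α × List ℕ) × ℕ) × ℕ) × ℕ) × ℕ => x.1.1.1 :=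
      Computable.fst.comp (Computable.fst.comp Computable.fst)
    have c0 : Computable fun x : ((((α × List ℕ) × ℕ) × ℕ) × ℕ) × ℕ => x.1.1.1.1.1 :=
      Computable.fst.comp (Computable.fst.comp d0)
    have c1 : Computable fun x : ((((α × List ℕ) × ℕ) × ℕ) × ℕ) × ℕ => x.1.1.1.1.2 :=
      Computable.snd.comp (Computable.fst.comp d0)
    have c2 : Computable fun x : ((((α × List ℕ) × ℕ) × ℕ) × ℕ) × ℕ => x.1.1.1.2 :=
      Computable.snd.comp d0
    have c3 : Computable fun x : ((((α × List ℕ) × ℕ) × ℕ) × ℕ) × ℕ => x.1.1.2 :=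
      Computable.snd.comp (Computable.fst.comp Computable.fst)
    have c4 : Computable fun x : ((((α × List ℕ) × ℕ) × ℕ) × ℕ) × ℕ => x.1.2 :=
      Computable.snd.comp Computable.fst
    have c5 : Computable fun x : ((((α × List ℕ) × ℕ) × ℕ) × ℕ) × ℕ => x.1.1.1.2 + 1 + x.1.1.2 :=
      (Primrec.nat_add.to_comp.comp (Computable.succ.comp c2) c3)
    exact Arith.imp (aGet c1 c2 c4) (Arith.imp (aGet c1 c5 Computable.snd)
      (aInf c4 Computable.snd (ha.comp c0)))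

theorem atom_iff (i : ℕ) : IsAtom (ix i) ↔ (¬ ∀ y, ix i ≤ ix y) ∧
    ∀ b, ix b ≤ ix i → ¬ ix i ≤ ix b → ∀ y, ix b ≤ ix y := by
  constructor
  · rintro ⟨h1, h2⟩
    refine ⟨fun h => h1 ((bot_iff i).2 h), fun b e1 e2 => ?_⟩
    exact (bot_iff b).1 (h2 _ (lt_of_le_not_ge e1 e2))
  · rintro ⟨h1, h2⟩
    refine ⟨fun h => h1 ((bot_iff i).1 h), fun c hc => ?_⟩
    obtain ⟨b, rfl⟩ := ix_surj c
    exact (bot_iff b).2 (h2 b hc.le (not_le_of_gt hc))

theorem aAtom {f : α → ℕ} (hf : Computable f) : Arith fun x => IsAtom (ix (f x)) := by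
  refine Arith.of_iff (p := fun x => (¬ ∀ y, ix (f x) ≤ ix y) ∧
    ∀ b, ix b ≤ ix (f x) → ¬ ix (f x) ≤ ix b → ∀ y, ix b ≤ ix y) ?_ fun x => (atom_iff _).symm
  refine Arith.and (Arith.not (aBot hf)) ?_
  refine aAll (p := fun x b => ix b ≤ ix (f x) → ¬ ix (f x) ≤ ix b → ∀ y, ix b ≤ ix y) ?_
  have c1 : Computable fun x : α × ℕ => x.2 := Computable.snd
  have c2 : Computable fun x : α × ℕ => f x.1 := hf.comp Computable.fst
  exact Arith.imp (aLe c1 c2) (Arith.imp (Arith.not (aLe c2 c1)) (aBot c1))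

theorem exists_len (l : List (List Bool)) : ∃ n, ∀ τ ∈ l, τ.length ≤ n := by
  induction l with
  | nil => exact ⟨0, fun τ h => absurd h (by simp)⟩
  | cons a l ih =>
    obtain ⟨n, hn⟩ := ih
    refine ⟨max a.length n, fun τ h => ?_⟩
    rcases List.mem_cons.1 h with rfl | h
    · exact le_max_left _ _
    · exact (hn τ h).trans (le_max_right _ _)

theorem le_cy (c : LB eX) (e : ℕ) (l : List (List Bool)) (hc : c.1 = cylS l) :
    ix e ≤ c ↔ ∃ n : ℕ, ∀ σ : List Bool, σ.length = n → σ ∈ Ext (idx e).1 →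
      ∃ τ : List Bool, ∃ i : ℕ, ∃ ρ : List Bool, l[i]? = some τ ∧ τ ++ ρ = σ := by
  rw [lb_le, hc]
  constructor
  · intro h
    obtain ⟨n, hn⟩ := exists_len l
    refine ⟨n, fun σ hσ hx => ?_⟩
    obtain ⟨x, hxK, hxs⟩ := hx
    obtain ⟨τ, hτ, hτx⟩ := h (show x ∈ (ix e).1 from hxK)
    obtain ⟨i, hi⟩ := List.getElem?_of_mem hτ
    obtain ⟨ρ, hρ⟩ := seg_prefix_iff.2 ⟨hn τ hτ, hτx⟩
    refine ⟨τ, i, ρ, hi, ?_⟩
    rw [hρ, ← hσ, hxs]
  · rintro ⟨n, h⟩ x hx
    obtain ⟨τ, i, ρ, h1, h2⟩ := h (seg x n) (seg_length x n) (seg_mem_ext hx n)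
    exact ⟨τ, List.mem_of_getElem? h1, (seg_prefix_iff.1 ⟨ρ, h2⟩).2⟩

theorem aCy (cy : List (List Bool) → LB eX) (hcy : ∀ l, (cy l).1 = cylS l) {f : α → ℕ}
    {g : α → List (List Bool)} (hf : Computable f) (hg : Computable g) :
    Arith fun x => ix (f x) ≤ cy (g x) := by
  refine Arith.of_iff (p := fun x => ∃ n : ℕ, ∀ σ : List Bool, σ.length = n →
    σ ∈ Ext (idx (f x)).1 →
      ∃ τ : List Bool, ∃ i : ℕ, ∃ ρ : List Bool, (g x)[i]? = some τ ∧ τ ++ ρ = σ) ?_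
    fun x => (le_cy _ _ _ (hcy _)).symm
  refine Arith.ex (p := fun x (n : ℕ) => ∀ σ : List Bool, σ.length = n →
    σ ∈ Ext (idx (f x)).1 →
      ∃ τ : List Bool, ∃ i : ℕ, ∃ ρ : List Bool, (g x)[i]? = some τ ∧ τ ++ ρ = σ) ?_
  refine Arith.all (p := fun (x : α × ℕ) (σ : List Bool) => σ.length = x.2 →
    σ ∈ Ext (idx (f x.1)).1 →
      ∃ τ : List Bool, ∃ i : ℕ, ∃ ρ : List Bool, (g x.1)[i]? = some τ ∧ τ ++ ρ = σ) ?_
  refine Arith.imp ?_ (Arith.imp ?_ ?_)
  · exact Arith.of_cp (RE.cp_eq (Computable.list_length.comp Computable.snd)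
      (Computable.snd.comp Computable.fst))
  · exact arith_extIdx.comp (f := fun x : (α × ℕ) × List Bool => (f x.1.1, x.2))
      ((hf.comp (Computable.fst.comp Computable.fst)).pair Computable.snd)
  · refine Arith.ex (p := fun (x : (α × ℕ) × List Bool) (τ : List Bool) => ∃ i : ℕ,
      ∃ ρ : List Bool, (g x.1.1)[i]? = some τ ∧ τ ++ ρ = x.2) ?_
    refine Arith.ex (p := fun (x : ((α × ℕ) × List Bool) × List Bool) (i : ℕ) =>
      ∃ ρ : List Bool, (g x.1.1.1)[i]? = some x.2 ∧ x.2 ++ ρ = x.1.2) ?_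
    refine Arith.ex (p := fun (x : (((α × ℕ) × List Bool) × List Bool) × ℕ) (ρ : List Bool) =>
      (g x.1.1.1.1)[x.2]? = some x.1.2 ∧ x.1.2 ++ ρ = x.1.1.2) ?_
    have d1 : Computable fun x : ((((α × ℕ) × List Bool) × List Bool) × ℕ) × List Bool =>
        x.1.1 := Computable.fst.comp Computable.fst
    have d2 : Computable fun x : ((((α × ℕ) × List Bool) × List Bool) × ℕ) × List Bool =>
        x.1.1.1.1.1 := Computable.fst.comp (Computable.fst.comp (Computable.fst.comp d1))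
    have d3 : Computable fun x : ((((α × ℕ) × List Bool) × List Bool) × ℕ) × List Bool =>
        x.1.1.2 := Computable.snd.comp d1
    have d4 : Computable fun x : ((((α × ℕ) × List Bool) × List Bool) × ℕ) × List Bool =>
        x.1.1.1.2 := Computable.snd.comp (Computable.fst.comp d1)
    have d5 : Computable fun x : ((((α × ℕ) × List Bool) × List Bool) × ℕ) × List Bool =>
        x.1.2 := Computable.snd.comp Computable.fst
    refine Arith.and ?_ ?_
    · exact Arith.of_cp (RE.cp_eq (Computable.list_getElem?.comp (hg.comp d2) d5)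
        (Computable.option_some.comp d3))
    · exact Arith.of_cp (RE.cp_eq (Computable.list_append.comp d3 Computable.snd) d4)

theorem mark_iff (p q n : ℕ) (c : LB eX) : Mark (ix p) (ix q) n c ↔
    ∀ a : ℕ, IsAtom (ix a) → ix a ≤ ix p → ix a ≤ c →
      NN (ix q) (ix a) n ∧ ¬ NN (ix q) (ix a) (n + 1) := by
  constructor
  · intro h a h1 h2 h3
    exact h (ix a) h1 (le_inf h2 h3)
  · intro h a
    obtain ⟨a, rfl⟩ := ix_surj a
    intro h1 h2
    exact h a h1 (h2.trans inf_le_left) (h2.trans inf_le_right)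

end Pool.Agent.H982R5.PiE4

namespace Pool.Agent.H572R4

open Pool.Agent.Helper446.Defs Pool.Agent.Helper446.CB Pool.Agent.Helper446.CB.Ix
open Pool.Agent.H982R5.PiE4

theorem taskE4 : TaskE4 := by
  intro _ cy hcy
  refine Arith.of_iff (p := fun x : (ℕ × ℕ) × (ℕ × List (List Bool)) =>
    ∀ a : ℕ, IsAtom (ix a) → ix a ≤ ix x.1.1 → ix a ≤ cy x.2.2 →
      NN (ix x.1.2) (ix a) x.2.1 ∧ ¬ NN (ix x.1.2) (ix a) (x.2.1 + 1)) ?_
    fun x => (mark_iff _ _ _ _).symm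
  refine aAll (p := fun (x : (ℕ × ℕ) × (ℕ × List (List Bool))) (a : ℕ) =>
    IsAtom (ix a) → ix a ≤ ix x.1.1 → ix a ≤ cy x.2.2 →
      NN (ix x.1.2) (ix a) x.2.1 ∧ ¬ NN (ix x.1.2) (ix a) (x.2.1 + 1)) ?_
  have c0 : Computable fun x : ((ℕ × ℕ) × (ℕ × List (List Bool))) × ℕ => x.2 := Computable.snd
  have c1 : Computable fun x : ((ℕ × ℕ) × (ℕ × List (List Bool))) × ℕ => x.1.1.1 :=
    Computable.fst.comp (Computable.fst.comp Computable.fst)
  have c2 : Computable fun x : ((ℕ × ℕ) × (ℕ × List (List Bool))) × ℕ => x.1.1.2 :=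
    Computable.snd.comp (Computable.fst.comp Computable.fst)
  have c3 : Computable fun x : ((ℕ × ℕ) × (ℕ × List (List Bool))) × ℕ => x.1.2.1 :=
    Computable.fst.comp (Computable.snd.comp Computable.fst)
  have c4 : Computable fun x : ((ℕ × ℕ) × (ℕ × List (List Bool))) × ℕ => x.1.2.2 :=
    Computable.snd.comp (Computable.snd.comp Computable.fst)
  exact Arith.imp (aAtom c0) (Arith.imp (aLe c0 c1) (Arith.imp (aCy cy hcy c0 c4)
    (Arith.and (aNN c2 c0 c3) (Arith.not (aNN c2 c0 (Computable.succ.comp c3))))))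

end Pool.Agent.H572R4
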